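import Pool.Agent.H76.MXT.Stmts

/-!
Row PAR of the board mxt: two closed curves in the plane cross evenly.
-/

set_option autoImplicit false

namespace Pool.MXT

open Set

theorem par_tc_continuous : Continuous tc := by
  have h : tc = fun q => Complex.equivRealProdCLM.symm q := by
    funext q
    apply Complex.ext <;> simp [tc]
  rw [h]
  exact Complex.equivRealProdCLM.symm.continuous

theorem par_tc_inj {p q : ℝ × ℝ} (h : tc p = tc q) : p = q := by
  have h1 := congrArg Complex.re h
  have h2 := congrArg Complex.im h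
  exact Prod.ext h1 h2

theorem par_thm (h1 : S_GLB) : S_PAR := by
  intro A B m n Z i hm hn hA hB hA0 hB0 hz hZ
  have hcon : Con (DF A B) 0 m 0 n := by
    have e1 : ContinuousOn (fun p : ℝ × ℝ => tc (A p.1)) (Icc 0 m ×ˢ Icc 0 n) :=
      par_tc_continuous.comp_continuousOn
        (hA.comp continuousOn_fst (fun p hp => hp.1))
    have e2 : ContinuousOn (fun p : ℝ × ℝ => tc (B p.2)) (Icc 0 m ×ˢ Icc 0 n) :=
      par_tc_continuous.comp_continuousOn
        (hB.comp continuousOn_snd (fun p hp => hp.2))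
    exact e1.sub e2
  obtain ⟨k, hk⟩ := h1 (DF A B) Z i 0 m 0 n hm hn hcon
    (fun x hx y hy hxy => hz x hx y hy (par_tc_inj (sub_eq_zero.1 hxy))) hZ
  have e3 : (fun x => DF A B x 0) = fun x => DF A B x n := by
    funext x
    simp only [DF, hB0]
  have e4 : (fun y => DF A B 0 y) = fun y => DF A B m y := by
    funext y
    simp only [DF, hA0]
  have e5 : wnd (DF A B) 0 m 0 n = 0 := by
    unfold wnd
    rw [e3, e4]
    ring
  rw [e5] at hk
  have hpi : (2 * Real.pi : ℝ) ≠ 0 := by
    have := Real.pi_pos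
    positivity
  have e6 : (2 * (k : ℝ) + ((∑ z ∈ Z, i z : ℕ) : ℝ)) = 0 := by
    rcases mul_eq_zero.1 hk.symm with h | h
    · exact absurd h hpi
    · exact h
  have e7 : 2 * k + ((∑ z ∈ Z, i z : ℕ) : ℤ) = 0 := by
    exact_mod_cast e6
  rw [← Int.even_coe_nat]
  exact ⟨-k, by omega⟩

end Pool.MXT
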